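import Pool.Agent.Q195.IM1

set_option autoImplicit false

open Pool.Agent.Q195.IM

namespace Pool.Agent.Results.MP_515085_an.IrregularManifoldNotDLYC

/-- Over `ℝ` and over `ℂ` there is a bounded operator on a Banach space that admits a dense
irregular manifold but is not densely uniformly Li-Yorke chaotic. -/
theorem result (𝕜 : Type) [RCLike 𝕜] :
    ∃ (X : Type) (_ : NormedAddCommGroup X) (_ : NormedSpace 𝕜 X) (_ : CompleteSpace X)
      (T : X →L[𝕜] X), DenseIrregularManifold T ∧ ¬ DenselyULY T :=
  main 𝕜

end Pool.Agent.Results.MP_515085_an.IrregularManifoldNotDLYC
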